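import Pool.Agent.Helper50.Drop.CoDefs
import Pool.Agent.Helper50.Drop.CLDefs

set_option autoImplicit false

namespace Pool.Agent.Helper50.Drop

open Finset MeasureTheory
open scoped RealInnerProductSpace
open Pool.Agent.Helper76.Freq (Q ins tr gr ev cobd cup Pr Adm gp Dep Nrm R3 E6 ver pt qf IsTop IsBot
  H4 exists_isTop exists_isBot)

/-! PIECE LEN.  Lengths of C¹ loops in compact families. -/

theorem len_Hf_eq (v : E 4) : Hf v =
    -(v 4) ^ 3 + 3 * v 4 * v 3 ^ 2 + 3 * √3 * v 0 * v 1 * v 2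
    + 3 * √3 / 2 * v 3 * (v 0 ^ 2 - v 2 ^ 2)
    + 3 * v 4 * v 1 ^ 2 - 3 / 2 * v 4 * (v 0 ^ 2 + v 2 ^ 2) := rfl

theorem len_diff : Differentiable ℝ Hf := by
  have h : ∀ i : Fin 5, Differentiable ℝ (fun v : E 4 => v i) := fun i =>
    (EuclideanSpace.proj (𝕜 := ℝ) i).differentiable
  have h0 := h 0
  have h1 := h 1
  have h2 := h 2
  have h3 := h 3
  have h4 := h 4
  have : Hf = fun v : E 4 => -(v 4) ^ 3 + 3 * v 4 * v 3 ^ 2 + 3 * √3 * v 0 * v 1 * v 2
    + 3 * √3 / 2 * v 3 * (v 0 ^ 2 - v 2 ^ 2)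
    + 3 * v 4 * v 1 ^ 2 - 3 / 2 * v 4 * (v 0 ^ 2 + v 2 ^ 2) := rfl
  rw [this]
  fun_prop

/-- the velocity of a family is a continuous function -/
theorem len_cont_vel {Z : Type*} [TopologicalSpace Z] (F : C(Z, CL 4)) :
    Continuous fun p : Z × unitInterval => (F p.1).vel p.2 := by
  have h : Continuous fun z : Z => (F z).1.2 :=
    continuous_snd.comp (continuous_subtype_val.comp F.continuous)
  exact (h.comp continuous_fst).eval continuous_snd

theorem len_cont_pos {Z : Type*} [TopologicalSpace Z] (F : C(Z, CL 4)) :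
    Continuous fun p : Z × unitInterval => (F p.1).pos p.2 := by
  have h : Continuous fun z : Z => (F z).1.1 :=
    continuous_fst.comp (continuous_subtype_val.comp F.continuous)
  exact (h.comp continuous_fst).eval continuous_snd

/-- bound of the length by a pointwise bound -/
theorem len_le {J : C(CL 4, LoopSpace 4)}
    (hJ : ∀ (γ : CL 4) (t : unitInterval), curve (J γ).1 t = γ.pos t)
    (hJ' : ∀ γ : CL 4, ∀ᵐ t ∂(volume.restrict (Set.Icc (0 : ℝ) 1)), (J γ).1.2 t = ext01 γ.vel t)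
    (g : SphereMetric 4) (γ : CL 4) (B : ℝ)
    (hB : ∀ t : unitInterval, √(g.form (γ.pos t) (γ.vel t) (γ.vel t)) ≤ B) :
    length g (J γ) ≤ B := by
  unfold length
  have h1 := hJ' γ
  rw [ae_restrict_iff' measurableSet_Icc] at h1
  have h2 : ‖∫ t in (0 : ℝ)..1, √(g.form (curve (J γ).1 t) ((J γ).1.2 t) ((J γ).1.2 t))‖ ≤
      B * |1 - 0| := by
    refine intervalIntegral.norm_integral_le_of_norm_le_const_ae ?_
    filter_upwards [h1] with t ht htI
    rw [Set.uIoc_of_le zero_le_one] at htI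
    have htI' : t ∈ Set.Icc (0 : ℝ) 1 := Set.Ioc_subset_Icc_self htI
    rw [ht htI', Real.norm_eq_abs, abs_of_nonneg (Real.sqrt_nonneg _)]
    have h3 := hJ γ ⟨t, htI'⟩
    have h4 : ext01 γ.vel t = γ.vel ⟨t, htI'⟩ := by
      unfold ext01
      rw [Set.projIcc_of_mem zero_le_one htI']
    simp only at h3
    rw [h3, h4]
    exact hB ⟨t, htI'⟩
  rw [sub_zero, abs_one, mul_one] at h2
  exact (le_abs_self _).trans h2

/-- bounded length of the level loops in a compact family, uniformly in the metric -/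
theorem length_level {Z : Type*} [TopologicalSpace Z] [CompactSpace Z] (J : C(CL 4, LoopSpace 4))
    (hJ : ∀ (γ : CL 4) (t : unitInterval), curve (J γ).1 t = γ.pos t)
    (hJ' : ∀ γ : CL 4, ∀ᵐ t ∂(volume.restrict (Set.Icc (0 : ℝ) 1)), (J γ).1.2 t = ext01 γ.vel t)
    (F : C(Z, CL 4)) (hF : ∀ z t t', Hf ((F z).pos t) = Hf ((F z).pos t')) :
    ∃ B : ℝ, ∀ (R : ℝ) (g : SphereMetric 4), (∀ x u v,
      g.form x u v = ⟪u, v⟫ + R ^ 2 * (fderiv ℝ Hf x u * fderiv ℝ Hf x v)) →
      ∀ z, length g (J (F z)) ≤ B := by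
  obtain ⟨B, hB⟩ := isCompact_univ.bddAbove_image (f := fun p : Z × unitInterval =>
    ‖(F p.1).vel p.2‖) (len_cont_vel F).norm.continuousOn
  refine ⟨B, fun R g hg z => len_le hJ hJ' g (F z) B fun t => ?_⟩
  have h1 : ‖(F z).vel t‖ ≤ B := hB ⟨(z, t), Set.mem_univ _, rfl⟩
  have h2 : fderiv ℝ Hf ((F z).pos t) ((F z).vel t) = 0 := by
    have h3 := (F z).2.2.2 t t.2
    have e1 : ext01 (F z).1.1 (t : ℝ) = (F z).pos t := by
      unfold ext01
      rw [Set.projIcc_of_mem zero_le_one t.2]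
      rfl
    have e2 : ext01 (F z).1.2 (t : ℝ) = (F z).vel t := by
      unfold ext01
      rw [Set.projIcc_of_mem zero_le_one t.2]
      rfl
    rw [e2] at h3
    have h4 : HasFDerivAt Hf (fderiv ℝ Hf ((F z).pos t)) (ext01 (F z).1.1 (t : ℝ)) := by
      rw [e1]
      exact (len_diff _).hasFDerivAt
    have h5 := h4.comp_hasDerivWithinAt (t : ℝ) h3
    have h6 : HasDerivWithinAt (Hf ∘ ext01 (F z).1.1) 0 (Set.Icc 0 1) (t : ℝ) := by
      have : Hf ∘ ext01 (F z).1.1 = fun _ => Hf ((F z).pos 0) := by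
        funext s
        exact hF z _ _
      rw [this]
      exact hasDerivWithinAt_const _ _ _
    exact (uniqueDiffOn_Icc (zero_lt_one (α := ℝ)) t t.2).eq_deriv _ h5 h6
  rw [hg, h2, mul_zero, mul_zero, add_zero, real_inner_self_eq_norm_sq,
    Real.sqrt_sq (norm_nonneg _)]
  exact h1

/-- bounded length of loops in a compact family -/
theorem length_compact {Z : Type*} [TopologicalSpace Z] [CompactSpace Z] (J : C(CL 4, LoopSpace 4))
    (hJ : ∀ (γ : CL 4) (t : unitInterval), curve (J γ).1 t = γ.pos t)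
    (hJ' : ∀ γ : CL 4, ∀ᵐ t ∂(volume.restrict (Set.Icc (0 : ℝ) 1)), (J γ).1.2 t = ext01 γ.vel t)
    (F : C(Z, CL 4)) (g : SphereMetric 4) : ∃ B : ℝ, ∀ z, length g (J (F z)) ≤ B := by
  have hc : Continuous fun p : Z × unitInterval =>
      √(g.form ((F p.1).pos p.2) ((F p.1).vel p.2) ((F p.1).vel p.2)) := by
    have h1 : Continuous fun p : Z × unitInterval => g.form ((F p.1).pos p.2) :=
      g.smooth.continuous.comp (len_cont_pos F)
    exact ((h1.clm_apply (len_cont_vel F)).clm_apply (len_cont_vel F)).sqrt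
  obtain ⟨B, hB⟩ := isCompact_univ.bddAbove_image hc.continuousOn
  exact ⟨B, fun z => len_le hJ hJ' g (F z) B fun t => hB ⟨(z, t), Set.mem_univ _, rfl⟩⟩

end Pool.Agent.Helper50.Drop
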